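import Mathlib

/-!
# Poset tournaments are not `χ⃗`-bounded

We answer the question of MP_265233_co in the negative: there are poset tournaments with clique
number `2` and arbitrarily large dichromatic number.

The construction: for a finite set of points in the plane (given by two strict total orders `x`
and `y` on the same type) let `u` be below `v` if `x u v` and `y u v`, and let `cov u v` say that
`v` covers `u` in this two-dimensional order. The comparable pairs which are not covering pairs
form again a poset, contained in `x`; the tournament in which exactly these pairs are oriented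
against `x` is a poset tournament. Its backedge graph for the order `y` reversed is the Hasse
diagram, which is triangle-free, and each acyclic set of vertices induces a bipartite subgraph of
the Hasse diagram. So it suffices to have Hasse diagrams of planar point sets with large chromatic
number (a theorem of Kříž and Nešetřil), for which we give a short inductive proof.
-/

set_option autoImplicit false

namespace Pool.Agent.Results.MP_265233_co.NotChiBounded

/-- `lt` is a strict total order on `V`. -/
structure StrictTotal {V : Type} (lt : V → V → Prop) : Prop where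
  irrefl : ∀ a, ¬ lt a a
  trans : ∀ a b c, lt a b → lt b c → lt a c
  total : ∀ a b, a ≠ b → lt a b ∨ lt b a

/-- A tournament on the vertex set `V`. -/
structure Tournament (V : Type) where
  /-- `arc u v` : there is an arc from `u` to `v` -/
  arc : V → V → Prop
  irrefl : ∀ v, ¬ arc v v
  asymm : ∀ u v, arc u v → ¬ arc v u
  total : ∀ u v, u ≠ v → arc u v ∨ arc v u

/-- `T` is a poset tournament: for some total order, the arcs pointing forward are transitive. -/
def Tournament.IsPoset {V : Type} (T : Tournament V) : Prop :=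
  ∃ lt : V → V → Prop, StrictTotal lt ∧
    ∀ u v w, lt u v → lt v w → T.arc u v → T.arc v w → T.arc u w

/-- The subdigraph induced on `s` has no directed cycle. -/
def Tournament.AcyclicOn {V : Type} (T : Tournament V) (s : Set V) : Prop :=
  ∀ v, ¬ Relation.TransGen (fun a b => a ∈ s ∧ b ∈ s ∧ T.arc a b) v v

/-- `T` has a dicolouring with `k` colours: all colour classes are acyclic. -/
def Tournament.Dicolourable {V : Type} (T : Tournament V) (k : ℕ) : Prop :=
  ∃ c : V → Fin k, ∀ i, T.AcyclicOn {v | c v = i}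

/-- The dichromatic number. -/
noncomputable def Tournament.dichromaticNumber {V : Type} (T : Tournament V) : ℕ :=
  sInf {k | T.Dicolourable k}

/-- The backedge graph of `T` for the total order `lt`. -/
def Tournament.backedge {V : Type} (T : Tournament V) (lt : V → V → Prop) : SimpleGraph V where
  Adj v w := (lt v w ∧ T.arc w v) ∨ (lt w v ∧ T.arc v w)
  symm := ⟨fun v w h => h.symm⟩
  loopless := ⟨fun v h => by
    rcases h with h | h <;> exact T.irrefl v h.2⟩

/-- The clique number of a tournament: the least clique number of a backedge graph. -/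
noncomputable def Tournament.cliqueNumber {V : Type} (T : Tournament V) : ℕ :=
  sInf {k | ∃ lt : V → V → Prop, StrictTotal lt ∧ (T.backedge lt).cliqueNum = k}

/-! ### Planar point sets -/

/-- `v` covers `u` in the two-dimensional order `x ∩ y`. -/
def cov {V : Type} (x y : V → V → Prop) (u v : V) : Prop :=
  x u v ∧ y u v ∧ ∀ z, ¬ (x u z ∧ y u z ∧ x z v ∧ y z v)

/-- `u` is a maximal element of the set of points which are not to the right of `v`. -/
def front {V : Type} (x y : V → V → Prop) (v u : V) : Prop :=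
  (x u v ∨ u = v) ∧ ∀ w, (x w v ∨ w = v) → ¬ (x u w ∧ y u w)

/-- Proper colourings of the Hasse diagram. -/
def Proper {V : Type} (x y : V → V → Prop) (c : V → ℕ) : Prop :=
  ∀ u v, cov x y u v → c u ≠ c v

/-- Every proper colouring has a front with at least `k` colours. -/
def PP (k : ℕ) : Prop :=
  ∃ (V : Type) (_ : Finite V) (x y : V → V → Prop), StrictTotal x ∧ StrictTotal y ∧
    ∀ c, Proper x y c → ∃ v, ∃ A : Finset ℕ, A.card = k ∧ ∀ a ∈ A, ∃ u, front x y v u ∧ c u = a

/-- Every proper colouring has more than `k` colours. -/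
def QQ (k : ℕ) : Prop :=
  ∃ (V : Type) (_ : Finite V) (x y : V → V → Prop), StrictTotal x ∧ StrictTotal y ∧
    ∀ c, Proper x y c → ∀ A : Finset ℕ, A.card = k → ∃ v, c v ∉ A

/-- add a point on top of every front -/
def xT {V : Type} (x : V → V → Prop) : V ⊕ V → V ⊕ V → Prop
  | .inl v, .inl w => x v w
  | .inl v, .inr w => x v w ∨ v = w
  | .inr v, .inl w => x v w
  | .inr v, .inr w => x v w

/-- add a point on top of every front -/
def yT {V : Type} (x y : V → V → Prop) : V ⊕ V → V ⊕ V → Prop
  | .inl v, .inl w => y v w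
  | .inl _, .inr _ => True
  | .inr _, .inl _ => False
  | .inr v, .inr w => x w v

/-- insert a copy of `U` right after each point, at the bottom -/
def xS {V U : Type} (x : V → V → Prop) (x' : U → U → Prop) : V ⊕ V × U → V ⊕ V × U → Prop
  | .inl v, .inl w => x v w
  | .inl v, .inr w => x v w.1 ∨ v = w.1
  | .inr v, .inl w => x v.1 w
  | .inr v, .inr w => x v.1 w.1 ∨ (v.1 = w.1 ∧ x' v.2 w.2)

/-- insert a copy of `U` right after each point, at the bottom -/
def yS {V U : Type} (y : V → V → Prop) (y' : U → U → Prop) : V ⊕ V × U → V ⊕ V × U → Prop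
  | .inl v, .inl w => y v w
  | .inl _, .inr _ => False
  | .inr _, .inl _ => True
  | .inr v, .inr w => y v.1 w.1 ∨ (v.1 = w.1 ∧ y' v.2 w.2)

lemma StrictTotal.asymm {V : Type} {x : V → V → Prop} (h : StrictTotal x) {a b : V}
    (h1 : x a b) (h2 : x b a) : False := h.irrefl a (h.trans a b a h1 h2)

lemma xT_st {V : Type} {x : V → V → Prop} (h : StrictTotal x) : StrictTotal (xT x) where
  irrefl := by
    rintro (a | a) ha
    · exact h.irrefl a ha
    · exact h.irrefl a ha
  trans := by
    rintro (a | a) (b | b) (c | c) h1 h2 <;> simp only [xT] at h1 h2 ⊢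
    · exact h.trans _ _ _ h1 h2
    · rcases h2 with h2 | rfl
      · exact Or.inl (h.trans _ _ _ h1 h2)
      · exact Or.inl h1
    · rcases h1 with h1 | rfl
      · exact h.trans _ _ _ h1 h2
      · exact h2
    · rcases h1 with h1 | rfl
      · exact Or.inl (h.trans _ _ _ h1 h2)
      · exact Or.inl h2
    · exact h.trans _ _ _ h1 h2
    · rcases h2 with h2 | rfl
      · exact h.trans _ _ _ h1 h2
      · exact h1
    · exact h.trans _ _ _ h1 h2
    · exact h.trans _ _ _ h1 h2
  total := by
    rintro (a | a) (b | b) hab <;> simp only [xT]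
    · exact h.total a b (fun e => hab (by rw [e]))
    · by_cases e : a = b
      · exact Or.inl (Or.inr e)
      · rcases h.total a b e with h1 | h1
        · exact Or.inl (Or.inl h1)
        · exact Or.inr h1
    · by_cases e : b = a
      · exact Or.inr (Or.inr e)
      · rcases h.total b a e with h1 | h1
        · exact Or.inr (Or.inl h1)
        · exact Or.inl h1
    · exact h.total a b (fun e => hab (by rw [e]))

lemma yT_st {V : Type} {x y : V → V → Prop} (h : StrictTotal x) (hy : StrictTotal y) :
    StrictTotal (yT x y) where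
  irrefl := by
    rintro (a | a) ha
    · exact hy.irrefl a ha
    · exact h.irrefl a ha
  trans := by
    rintro (a | a) (b | b) (c | c) h1 h2 <;> simp only [yT] at h1 h2 ⊢
    · exact hy.trans _ _ _ h1 h2
    · exact h.trans _ _ _ h2 h1
  total := by
    rintro (a | a) (b | b) hab <;> simp only [yT]
    · exact hy.total a b (fun e => hab (by rw [e]))
    · simp
    · simp
    · exact (h.total b a (fun e => hab (by rw [e])))

lemma xS_st {V U : Type} {x : V → V → Prop} {x' : U → U → Prop} (h : StrictTotal x)
    (h' : StrictTotal x') : StrictTotal (xS x x') where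
  irrefl := by
    rintro (a | a) ha
    · exact h.irrefl a ha
    · rcases ha with ha | ha
      · exact h.irrefl _ ha
      · exact h'.irrefl _ ha.2
  trans := by
    rintro (a | ⟨a, a'⟩) (b | ⟨b, b'⟩) (c | ⟨c, c'⟩) h1 h2 <;> simp only [xS] at h1 h2 ⊢
    · exact h.trans _ _ _ h1 h2
    · rcases h2 with h2 | rfl
      · exact Or.inl (h.trans _ _ _ h1 h2)
      · exact Or.inl h1
    · rcases h1 with h1 | rfl
      · exact h.trans _ _ _ h1 h2
      · exact h2
    · rcases h1 with h1 | rfl
      · rcases h2 with h2 | ⟨rfl, h2⟩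
        · exact Or.inl (h.trans _ _ _ h1 h2)
        · exact Or.inl h1
      · rcases h2 with h2 | ⟨rfl, h2⟩
        · exact Or.inl h2
        · exact Or.inr rfl
    · exact h.trans _ _ _ h1 h2
    · rcases h2 with h2 | rfl
      · exact Or.inl (h.trans _ _ _ h1 h2)
      · exact Or.inl h1
    · rcases h1 with h1 | ⟨rfl, h1⟩
      · exact h.trans _ _ _ h1 h2
      · exact h2
    · rcases h1 with h1 | ⟨rfl, h1⟩
      · rcases h2 with h2 | ⟨rfl, h2⟩
        · exact Or.inl (h.trans _ _ _ h1 h2)
        · exact Or.inl h1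
      · rcases h2 with h2 | ⟨rfl, h2⟩
        · exact Or.inl h2
        · exact Or.inr ⟨rfl, h'.trans _ _ _ h1 h2⟩
  total := by
    rintro (a | ⟨a, a'⟩) (b | ⟨b, b'⟩) hab <;> simp only [xS]
    · exact h.total a b (fun e => hab (by rw [e]))
    · by_cases e : a = b
      · exact Or.inl (Or.inr e)
      · rcases h.total a b e with h1 | h1
        · exact Or.inl (Or.inl h1)
        · exact Or.inr h1
    · by_cases e : b = a
      · exact Or.inr (Or.inr e)
      · rcases h.total b a e with h1 | h1
        · exact Or.inr (Or.inl h1)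
        · exact Or.inl h1
    · by_cases e : a = b
      · subst e
        have e2 : a' ≠ b' := fun e => hab (by rw [e])
        rcases h'.total a' b' e2 with h1 | h1
        · exact Or.inl (Or.inr ⟨rfl, h1⟩)
        · exact Or.inr (Or.inr ⟨rfl, h1⟩)
      · rcases h.total a b e with h1 | h1
        · exact Or.inl (Or.inl h1)
        · exact Or.inr (Or.inl h1)

lemma yS_st {V U : Type} {y : V → V → Prop} {y' : U → U → Prop} (h : StrictTotal y)
    (h' : StrictTotal y') : StrictTotal (yS y y') where
  irrefl := by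
    rintro (a | a) ha
    · exact h.irrefl a ha
    · rcases ha with ha | ha
      · exact h.irrefl _ ha
      · exact h'.irrefl _ ha.2
  trans := by
    rintro (a | ⟨a, a'⟩) (b | ⟨b, b'⟩) (c | ⟨c, c'⟩) h1 h2 <;> simp only [yS] at h1 h2 ⊢
    · exact h.trans _ _ _ h1 h2
    · rcases h1 with h1 | ⟨rfl, h1⟩
      · rcases h2 with h2 | ⟨rfl, h2⟩
        · exact Or.inl (h.trans _ _ _ h1 h2)
        · exact Or.inl h1
      · rcases h2 with h2 | ⟨rfl, h2⟩
        · exact Or.inl h2
        · exact Or.inr ⟨rfl, h'.trans _ _ _ h1 h2⟩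
  total := by
    rintro (a | ⟨a, a'⟩) (b | ⟨b, b'⟩) hab <;> simp only [yS]
    · exact h.total a b (fun e => hab (by rw [e]))
    · simp
    · simp
    · by_cases e : a = b
      · subst e
        have e2 : a' ≠ b' := fun e => hab (by rw [e])
        rcases h'.total a' b' e2 with h1 | h1
        · exact Or.inl (Or.inr ⟨rfl, h1⟩)
        · exact Or.inr (Or.inr ⟨rfl, h1⟩)
      · rcases h.total a b e with h1 | h1
        · exact Or.inl (Or.inl h1)
        · exact Or.inr (Or.inl h1)

/-- One point: the front is nonempty. -/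
lemma PP_zero : PP 0 := by
  refine ⟨Unit, inferInstance, fun _ _ => False, fun _ _ => False, ?_, ?_, ?_⟩
  · exact ⟨fun _ h => h, fun _ _ _ h _ => h, fun a b h => (h (Subsingleton.elim a b)).elim⟩
  · exact ⟨fun _ h => h, fun _ _ _ h _ => h, fun a b h => (h (Subsingleton.elim a b)).elim⟩
  · intro c _
    exact ⟨(), ∅, rfl, fun a ha => by simp at ha⟩

lemma QQ_of_PP {k : ℕ} (h : PP k) : QQ k := by
  obtain ⟨V, hV, x, y, hx, hy, hP⟩ := h
  refine ⟨V ⊕ V, inferInstance, xT x, yT x y, xT_st hx, yT_st hx hy, ?_⟩
  intro c hc A hA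
  by_contra hcon
  push Not at hcon
  have hprop : Proper x y (fun v => c (.inl v)) := by
    intro u v huv
    apply hc
    refine ⟨huv.1, huv.2.1, ?_⟩
    rintro (z | z) hz
    · exact huv.2.2 z hz
    · exact hz.2.2.2
  obtain ⟨v, B, hB, hB'⟩ := hP _ hprop
  have hsub : B ⊆ A := by
    intro a ha
    obtain ⟨u, _, hu⟩ := hB' a ha
    rw [← hu]
    exact hcon _
  have hBA : B = A := Finset.eq_of_subset_of_card_le hsub (by omega)
  have hv : c (.inr v) ∈ B := by
    rw [hBA]
    exact hcon _
  obtain ⟨u, hu, hcu⟩ := hB' _ hv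
  refine hc (.inl u) (.inr v) ⟨hu.1, trivial, ?_⟩ hcu
  rintro (z | z) ⟨h1, h2, h3, h4⟩
  · exact hu.2 z h3 ⟨h1, h2⟩
  · exact hx.asymm (show x z v from h3) (show x v z from h4)

lemma PP_succ {k : ℕ} (h : PP k) : PP (k + 1) := by
  obtain ⟨U, hU, x', y', hx', hy', hQ⟩ := QQ_of_PP h
  obtain ⟨V, hV, x, y, hx, hy, hP⟩ := h
  refine ⟨V ⊕ V × U, inferInstance, xS x x', yS y y', xS_st hx hx', yS_st hy hy', ?_⟩
  intro c hc
  have hprop : Proper x y (fun v => c (.inl v)) := by
    intro u v huv
    apply hc
    refine ⟨huv.1, huv.2.1, ?_⟩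
    rintro (z | z) hz
    · exact huv.2.2 z hz
    · exact hz.2.1
  obtain ⟨v, A, hA, hA'⟩ := hP _ hprop
  have hprop' : Proper x' y' (fun t => c (.inr (v, t))) := by
    intro s t hst
    apply hc
    refine ⟨Or.inr ⟨rfl, hst.1⟩, Or.inr ⟨rfl, hst.2.1⟩, ?_⟩
    rintro (z | ⟨z, r⟩) ⟨h1, h2, h3, h4⟩
    · have h1' : x v z := h1
      have h3' : x z v ∨ z = v := h3
      rcases h3' with h3' | rfl
      · exact hx.asymm h1' h3'
      · exact hx.irrefl _ h1'
    · have h1' : x v z ∨ (v = z ∧ x' s r) := h1
      have h3' : x z v ∨ (z = v ∧ x' r t) := h3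
      have h2' : y v z ∨ (v = z ∧ y' s r) := h2
      have h4' : y z v ∨ (z = v ∧ y' r t) := h4
      by_cases e : v = z
      · subst e
        have i1 : ¬ x v v := hx.irrefl v
        have i2 : ¬ y v v := hy.irrefl v
        refine hst.2.2 r ⟨?_, ?_, ?_, ?_⟩ <;> tauto
      · have e' : ¬ z = v := fun h => e h.symm
        have i1 : x v z := by tauto
        have i2 : x z v := by tauto
        exact hx.asymm i1 i2
  obtain ⟨t, ht⟩ := hQ _ hprop' A hA
  refine ⟨.inr (v, t), insert (c (.inr (v, t))) A, ?_, ?_⟩
  · rw [Finset.card_insert_of_notMem ht, hA]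
  · intro a ha
    rcases Finset.mem_insert.1 ha with rfl | ha
    · refine ⟨.inr (v, t), ⟨Or.inr rfl, ?_⟩, rfl⟩
      intro w hw hw'
      rcases hw with hw | rfl
      · exact (xS_st hx hx').asymm hw'.1 hw
      · exact (xS_st hx hx').irrefl _ hw'.1
    · obtain ⟨u, hu, hcu⟩ := hA' a ha
      refine ⟨.inl u, ⟨Or.inl hu.1, ?_⟩, hcu⟩
      rintro (w | w) hw hw'
      · have hw1 : x w v ∨ w = v := by
          rcases hw with hw | hw
          · exact hw
          · exact absurd hw (by simp)
        exact hu.2 w hw1 hw'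
      · exact hw'.2

lemma PP_all (k : ℕ) : PP k := by
  induction k with
  | zero => exact PP_zero
  | succ k ih => exact PP_succ ih

/-- **Hasse diagrams of planar point sets have unbounded chromatic number**
(Kříž and Nešetřil). -/
lemma QQ_all (k : ℕ) : QQ k := QQ_of_PP (PP_all k)

/-! ### The tournament -/

/-- comparable pairs which are not covering pairs -/
def HH {V : Type} (x y : V → V → Prop) (u v : V) : Prop :=
  x u v ∧ y u v ∧ ∃ z, x u z ∧ y u z ∧ x z v ∧ y z v

lemma HH_trans {V : Type} {x y : V → V → Prop} (hx : StrictTotal x) (hy : StrictTotal y)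
    {a b c : V} (h1 : HH x y a b) (h2 : HH x y b c) : HH x y a c :=
  ⟨hx.trans _ _ _ h1.1 h2.1, hy.trans _ _ _ h1.2.1 h2.2.1, b, h1.1, h1.2.1, h2.1, h2.2.1⟩

/-- the tournament of a planar point set -/
def tour {V : Type} {x : V → V → Prop} (y : V → V → Prop) (hx : StrictTotal x) :
    Tournament V where
  arc a b := (x a b ∧ ¬ HH x y a b) ∨ (x b a ∧ HH x y b a)
  irrefl v h := by
    rcases h with h | h <;> exact hx.irrefl v h.1
  asymm u v h h' := by
    rcases h with h | h <;> rcases h' with h' | h'
    · exact hx.asymm h.1 h'.1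
    · exact h.2 h'.2
    · exact h'.2 h.2
    · exact hx.asymm h.1 h'.1
  total u v huv := by
    rcases hx.total u v huv with h | h
    · by_cases h' : HH x y u v
      · exact Or.inr (Or.inr ⟨h, h'⟩)
      · exact Or.inl (Or.inl ⟨h, h'⟩)
    · by_cases h' : HH x y v u
      · exact Or.inl (Or.inr ⟨h, h'⟩)
      · exact Or.inr (Or.inl ⟨h, h'⟩)

lemma rev_st {V : Type} {x : V → V → Prop} (hx : StrictTotal x) :
    StrictTotal (fun a b => x b a) where
  irrefl a := hx.irrefl a
  trans a b c h1 h2 := hx.trans _ _ _ h2 h1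
  total a b h := hx.total b a h.symm

lemma tour_poset {V : Type} {x y : V → V → Prop} (hx : StrictTotal x) (hy : StrictTotal y) :
    (tour y hx).IsPoset := by
  refine ⟨fun a b => x b a, rev_st hx, ?_⟩
  intro u v w h1 h2 h3 h4
  have h3' : HH x y v u := by
    rcases h3 with h3 | h3
    · exact (hx.asymm h3.1 h1).elim
    · exact h3.2
  have h4' : HH x y w v := by
    rcases h4 with h4 | h4
    · exact (hx.asymm h4.1 h2).elim
    · exact h4.2
  exact Or.inr ⟨hx.trans _ _ _ h2 h1, HH_trans hx hy h4' h3'⟩

lemma cov_of_not {V : Type} {x y : V → V → Prop} {u v : V} (h1 : x u v) (h2 : y u v)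
    (h3 : ¬ HH x y u v) : cov x y u v := by
  refine ⟨h1, h2, ?_⟩
  intro z hz
  exact h3 ⟨h1, h2, z, hz⟩

lemma adj_cov {V : Type} {x y : V → V → Prop} (hx : StrictTotal x) (hy : StrictTotal y)
    {v w : V} (h : ((tour y hx).backedge (fun a b => y b a)).Adj v w) :
    cov x y v w ∨ cov x y w v := by
  have key : ∀ v w, y w v → (tour y hx).arc w v → cov x y w v := by
    intro v w h1 h2
    rcases h2 with h2 | h2
    · exact cov_of_not h2.1 h1 h2.2
    · exact (hy.asymm h2.2.2.1 h1).elim
  rcases h with h | h
  · exact Or.inr (key v w h.1 h.2)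
  · exact Or.inl (key w v h.1 h.2)

/-- The Hasse diagram is triangle-free. -/
lemma no_triangle {V : Type} {x y : V → V → Prop} (hx : StrictTotal x) (hy : StrictTotal y)
    {a b c : V} (h1 : cov x y a b ∨ cov x y b a) (h2 : cov x y b c ∨ cov x y c b)
    (h3 : cov x y a c ∨ cov x y c a) : False := by
  have key : ∀ a b c, cov x y a b → cov x y b c → cov x y a c ∨ cov x y c a → False := by
    intro a b c h1 h2 h3
    rcases h3 with h3 | h3
    · exact h3.2.2 b ⟨h1.1, h1.2.1, h2.1, h2.2.1⟩
    · exact hx.asymm (hx.trans _ _ _ h1.1 h2.1) h3.1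
  rcases h1 with h1 | h1 <;> rcases h2 with h2 | h2
  · exact key a b c h1 h2 h3
  · rcases h3 with h3 | h3
    · exact key a c b h3 h2 (Or.inl h1)
    · exact key c a b h3 h1 (Or.inl h2)
  · rcases h3 with h3 | h3
    · exact key b a c h1 h3 (Or.inl h2)
    · exact key b c a h2 h3 (Or.inl h1)
  · exact key c b a h2 h1 h3.symm

lemma clique_le {V : Type} [Finite V] {x y : V → V → Prop} (hx : StrictTotal x)
    (hy : StrictTotal y) : ((tour y hx).backedge (fun a b => y b a)).cliqueNum ≤ 2 := by
  classical
  have hfree : ((tour y hx).backedge (fun a b => y b a)).CliqueFree 3 := by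
    intro s hs
    rw [SimpleGraph.is3Clique_iff] at hs
    obtain ⟨a, b, c, hab, hac, hbc, _⟩ := hs
    exact no_triangle hx hy (adj_cov hx hy hab) (adj_cov hx hy hbc) (adj_cov hx hy hac)
  obtain ⟨s, hs⟩ := SimpleGraph.exists_isNClique_cliqueNum
    (G := (tour y hx).backedge (fun a b => y b a))
  by_contra hcon
  push Not at hcon
  exact (hfree.mono hcon) s hs

/-- A dicolouring with `k` colours gives a proper colouring of the Hasse diagram with `2 k`
colours. -/
lemma proper_of_dicol {V : Type} {x y : V → V → Prop} (hx : StrictTotal x) (hy : StrictTotal y)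
    {k : ℕ} (h : (tour y hx).Dicolourable k) :
    ∃ c : V → ℕ, Proper x y c ∧ ∀ v, c v < 2 * k := by
  classical
  obtain ⟨c, hc⟩ := h
  refine ⟨fun v => 2 * (c v : ℕ) + if (∃ w, c w = c v ∧ cov x y v w) then 1 else 0, ?_, ?_⟩
  · intro u v huv heq
    have h1 : c u = c v := by
      apply Fin.ext
      simp only at heq
      split_ifs at heq <;> omega
    simp only at heq
    rw [if_pos ⟨v, h1.symm, huv⟩] at heq
    have h2 : ∃ w, c w = c v ∧ cov x y v w := by
      by_contra hcon
      rw [if_neg hcon, h1] at heq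
      omega
    obtain ⟨w, hw, hvw⟩ := h2
    have a1 : (tour y hx).arc u v := Or.inl ⟨huv.1, fun hh => by
      obtain ⟨z, hz⟩ := hh.2.2
      exact huv.2.2 z hz⟩
    have a2 : (tour y hx).arc v w := Or.inl ⟨hvw.1, fun hh => by
      obtain ⟨z, hz⟩ := hh.2.2
      exact hvw.2.2 z hz⟩
    have a3 : (tour y hx).arc w u := Or.inr ⟨hx.trans _ _ _ huv.1 hvw.1,
      hx.trans _ _ _ huv.1 hvw.1, hy.trans _ _ _ huv.2.1 hvw.2.1, v, huv.1, huv.2.1,
      hvw.1, hvw.2.1⟩
    apply hc (c u) u
    refine Relation.TransGen.head (b := v) ⟨rfl, h1.symm, a1⟩ ?_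
    refine Relation.TransGen.head (b := w) ⟨h1.symm, by rw [Set.mem_ofPred_eq, hw, h1], a2⟩ ?_
    exact Relation.TransGen.single ⟨by rw [Set.mem_ofPred_eq, hw, h1], rfl, a3⟩
  · intro v
    have := (c v).isLt
    simp only
    split_ifs <;> omega

lemma exists_dicol {V : Type} [Finite V] (T : Tournament V) : ∃ k, T.Dicolourable k := by
  obtain ⟨n, ⟨e⟩⟩ := Finite.exists_equiv_fin V
  refine ⟨n, e, ?_⟩
  intro i v hv
  have key : ∀ a b, Relation.TransGen
      (fun a b => a ∈ {v | e v = i} ∧ b ∈ {v | e v = i} ∧ T.arc a b) a b → False := by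
    intro a b h
    have h' : ∀ a b, (a ∈ {v | e v = i} ∧ b ∈ {v | e v = i} ∧ T.arc a b) → False := by
      rintro a b ⟨h1, h2, h3⟩
      have : a = b := e.injective (by rw [show e a = i from h1, show e b = i from h2])
      subst this
      exact T.irrefl _ h3
    induction h with
    | single h => exact h' _ _ h
    | tail _ h _ => exact h' _ _ h
  exact key v v hv

/-- If a backedge graph has no edge, one colour suffices. -/
lemma dicol_one {V : Type} (T : Tournament V) {lt : V → V → Prop} (hlt : StrictTotal lt)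
    (h : ∀ v w, lt v w → ¬ T.arc w v) : T.Dicolourable 1 := by
  refine ⟨fun _ => 0, ?_⟩
  intro i v hv
  have step : ∀ a b, T.arc a b → lt a b := by
    intro a b hab
    rcases hlt.total a b (fun e => T.irrefl a (by rw [← e] at hab; exact hab)) with h1 | h1
    · exact h1
    · exact (h b a h1 hab).elim
  have key : ∀ a b, Relation.TransGen
      (fun a b => a ∈ {v : V | (0 : Fin 1) = i} ∧ b ∈ {v : V | (0 : Fin 1) = i} ∧ T.arc a b) a b →
      lt a b := by
    intro a b h
    induction h with
    | single h => exact step _ _ h.2.2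
    | tail _ h ih => exact hlt.trans _ _ _ ih (step _ _ h.2.2)
  exact hlt.irrefl v (key v v hv)

lemma le_dichrom {V : Type} [Finite V] {x y : V → V → Prop} (hx : StrictTotal x)
    (hy : StrictTotal y) {m : ℕ}
    (hQ : ∀ c, Proper x y c → ∀ A : Finset ℕ, A.card = 2 * m → ∃ v, c v ∉ A) :
    m < (tour y hx).dichromaticNumber := by
  by_contra hcon
  push Not at hcon
  have hmem : (tour y hx).Dicolourable (tour y hx).dichromaticNumber :=
    Nat.sInf_mem (s := {k | (tour y hx).Dicolourable k}) (exists_dicol _)
  obtain ⟨c, hc, hc'⟩ := proper_of_dicol hx hy hmem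
  obtain ⟨v, hv⟩ := hQ c hc (Finset.range (2 * m)) (Finset.card_range _)
  apply hv
  rw [Finset.mem_range]
  have := hc' v
  omega

lemma clique_eq_two {V : Type} [Finite V] {x y : V → V → Prop} (hx : StrictTotal x)
    (hy : StrictTotal y) (h2 : 1 < (tour y hx).dichromaticNumber) :
    (tour y hx).cliqueNumber = 2 := by
  classical
  apply le_antisymm
  · have h1 : (tour y hx).cliqueNumber ≤
        ((tour y hx).backedge (fun a b => y b a)).cliqueNum :=
      Nat.sInf_le ⟨_, rev_st hy, rfl⟩
    exact h1.trans (clique_le hx hy)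
  · have hne : {k | ∃ lt : V → V → Prop, StrictTotal lt ∧
        ((tour y hx).backedge lt).cliqueNum = k}.Nonempty := ⟨_, _, hx, rfl⟩
    obtain ⟨lt, hlt, he⟩ := Nat.sInf_mem hne
    have he' : ((tour y hx).backedge lt).cliqueNum = (tour y hx).cliqueNumber := he
    rw [← he']
    by_contra hcon
    push Not at hcon
    have hno : ∀ v w, lt v w → ¬ (tour y hx).arc w v := by
      intro v w h1 h3
      have hadj : ((tour y hx).backedge lt).Adj v w := Or.inl ⟨h1, h3⟩
      have hcl : ((tour y hx).backedge lt).IsClique (({v, w} : Finset V) : Set V) := by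
        rw [Finset.coe_pair, SimpleGraph.isClique_pair]
        exact fun _ => hadj
      have := SimpleGraph.IsClique.card_le_cliqueNum (tc := hcl)
      rw [Finset.card_pair hadj.ne] at this
      omega
    have := Nat.sInf_le (s := {k | (tour y hx).Dicolourable k}) (dicol_one _ hlt hno)
    have h4 : (tour y hx).dichromaticNumber ≤ 1 := this
    omega

/-- **Poset tournaments are not `χ⃗`-bounded.** For every `m` there is a finite poset tournament
with clique number `2` and dichromatic number greater than `m`; hence there is no function `f`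
with `χ⃗(T) ≤ f(ω⃗(T))` for all finite poset tournaments `T`. -/
theorem result :
    (∀ m : ℕ, ∃ (V : Type) (_ : Finite V) (T : Tournament V),
      T.IsPoset ∧ T.cliqueNumber = 2 ∧ m < T.dichromaticNumber) ∧
    ¬ ∃ f : ℕ → ℕ, ∀ (V : Type) (_ : Finite V) (T : Tournament V),
      T.IsPoset → T.dichromaticNumber ≤ f T.cliqueNumber := by
  have main : ∀ m : ℕ, ∃ (V : Type) (_ : Finite V) (T : Tournament V),
      T.IsPoset ∧ T.cliqueNumber = 2 ∧ m < T.dichromaticNumber := by
    intro m
    obtain ⟨V, hV, x, y, hx, hy, hQ⟩ := QQ_all (2 * (m + 1))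
    have h1 := le_dichrom hx hy hQ
    exact ⟨V, hV, tour y hx, tour_poset hx hy, clique_eq_two hx hy (by omega), by omega⟩
  refine ⟨main, ?_⟩
  rintro ⟨f, hf⟩
  obtain ⟨V, hV, T, h1, h2, h3⟩ := main (f 2)
  have := hf V hV T h1
  rw [h2] at this
  omega

end Pool.Agent.Results.MP_265233_co.NotChiBounded
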